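import Mathlib
import Pool.Agent.X20.PowerProd
import Pool.Agent.X20.PowerProdTable
import Pool.Agent.X20.PowerProdEven
import Pool.Agent.X20.PowerProdSigns

/-! Signs in the power product expansion of the partition function. -/

namespace Pool.Agent.Results.MP_f3871b_nt.SignPattern

open Pool.Agent.X20.PowerProd

/-- There is an integer sequence `a` with `∑ p(n) x^n = ∏_{k ≥ 1} (1 + a_k x^k)` (`IsExp a`), and
for every such sequence and every `k ≥ 1`: `a(8k+2) < 0`, `a(8k+4) < 0`, `a(8k+6) < 0` and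
`a(8k) > 0`. -/
theorem result : (∃ a : ℕ → ℤ, IsExp a) ∧ ∀ a : ℕ → ℤ, IsExp a → ∀ k : ℕ, 1 ≤ k →
    a (8 * k + 2) < 0 ∧ a (8 * k + 4) < 0 ∧ a (8 * k + 6) < 0 ∧ 0 < a (8 * k) := by
  refine ⟨exists_exp, fun a ha k hk => ⟨?_, ?_, ?_, ?_⟩⟩
  · have h := signs ha (4 * k + 1) (by omega)
    rw [if_neg (by omega), show 2 * (4 * k + 1) = 8 * k + 2 by ring] at h
    exact h
  · have h := signs ha (4 * k + 2) (by omega)
    rw [if_neg (by omega), show 2 * (4 * k + 2) = 8 * k + 4 by ring] at h
    exact h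
  · have h := signs ha (4 * k + 3) (by omega)
    rw [if_neg (by omega), show 2 * (4 * k + 3) = 8 * k + 6 by ring] at h
    exact h
  · have h := signs ha (4 * k) (by omega)
    rw [if_pos (by omega), show 2 * (4 * k) = 8 * k by ring] at h
    exact h

end Pool.Agent.Results.MP_f3871b_nt.SignPattern
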